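import Pool.Agent.H30.AX.Targets2
import Pool.Agent.H64.AV.CUR
import Pool.Agent.H27.LV.Final

/-!
# MP_70ba79_ag, board `aw_modules`: DC3, comparison of degrees
-/

set_option autoImplicit false

namespace Pool.Agent.H54.AW

open MvPolynomial SC Pool.Agent.H27.LV Pool.Agent.H30.AV Pool.Agent.H30.AW Pool.Agent.H30.AX

section
variable {k K : Type} [Field k] [Field K] [Algebra k K] (v : DV k K)

/-- the value of a form at a point with bounded poles -/
private theorem ge_form {n : ℕ} (z' : Fin (n + 1) → K) (c : MvPolynomial (Fin (n + 1)) k) {D : ℕ}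
    (hc : c.IsHomogeneous D) : ge v (-((D : ℤ) * poleOrder v z')) (aeval z' c) := by
  have h1 : ∀ s, Pool.Agent.H64.AV.R2 v (-(2 * (poleOrder v z' : ℤ))) (z' s) := fun s =>
    Or.inr (by
      have := npole_le v z' s
      linarith)
  rcases Pool.Agent.H64.AV.R2.form z' h1 c hc with h2 | h2
  · exact Or.inl h2
  · right
    have h3 : (D : ℤ) * -(2 * (poleOrder v z' : ℤ)) = 2 * -((D : ℤ) * poleOrder v z') := by ring
    rw [h3] at h2
    linarith

/-- the order of a pole of a root of a polynomial -/
private theorem root_pole {d : ℕ} (hd : 1 ≤ d) (c : ℕ → K) (z : K) (B : ℤ)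
    (hc : ∀ l, ge v (-B) (c l)) (hcd : c d ≠ 0)
    (hz : ∑ l ∈ Finset.range (d + 1), c l * z ^ l = 0) :
    (((-(v.ord z)).toNat : ℕ) : ℤ) ≤ v.ord (c d) + B := by
  have h0 : 0 ≤ v.ord (c d) + B := by
    have := (hc d).resolve_left hcd
    linarith
  by_cases hp : 0 ≤ v.ord z
  · have h1 : (-(v.ord z)).toNat = 0 := Int.toNat_eq_zero.2 (by linarith)
    rw [h1]
    exact_mod_cast h0
  · rw [not_le] at hp
    have hz0 : z ≠ 0 := by
      intro h
      rw [h, v.ord_zero] at hp
      exact lt_irrefl _ hp
    rw [Finset.sum_range_succ] at hz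
    have h1 : c d * z ^ d = -∑ l ∈ Finset.range d, c l * z ^ l := by
      linear_combination hz
    have h2 : ge v (-B + (d - 1 : ℤ) * v.ord z) (c d * z ^ d) := by
      rw [h1]
      refine ge.neg (ge_sum v _ _ _ fun l hl => ?_)
      have hl' : (l : ℤ) ≤ d - 1 := by
        have := Finset.mem_range.1 hl
        omega
      refine (hc l).mul (Or.inr ?_)
      rw [v.ord_pow]
      exact mul_le_mul_of_nonpos_right hl' hp.le
    have h3 : c d * z ^ d ≠ 0 := mul_ne_zero hcd (pow_ne_zero _ hz0)
    have h4 := h2.resolve_left h3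
    rw [v.ord_mul' hcd (pow_ne_zero _ hz0), v.ord_pow] at h4
    rw [Int.toNat_of_nonneg (by linarith)]
    have h5 : ((d : ℤ) - 1) * v.ord z = d * v.ord z - v.ord z := by ring
    rw [h5] at h4
    linarith

end

theorem pf_DC3 (hPFM : T_PFM) (hDFI : T_DFI) (hPFI : T_PFI) : T_DC3 := by
  intro k K _ _ _ _ _ _ htr σ _ n D d c z z' hd hc hz' hcd hz
  classical
  refine ⟨?_, fun hconst s => ?_⟩
  · -- the local inequality
    have hloc : ∀ v : DV k K, (poleOrder v z : ℤ) ≤
        ∑ s, (v.ord (aeval z' (c s (d s))) + (D s : ℤ) * poleOrder v z') := by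
      intro v
      have h1 : ∀ s, (((-(v.ord (z s))).toNat : ℕ) : ℤ) ≤
          v.ord (aeval z' (c s (d s))) + (D s : ℤ) * poleOrder v z' := fun s =>
        root_pole v (hd s) (fun l => aeval z' (c s l)) (z s) _
          (fun l => ge_form v z' (c s l) (hc s l)) (hcd s) (hz s)
      have h2 : poleOrder v z ≤
          ∑ s, (v.ord (aeval z' (c s (d s))) + (D s : ℤ) * poleOrder v z').toNat := by
        unfold poleOrder
        refine Finset.sup_le fun s _ => ?_
        refine le_trans ?_ (Finset.single_le_sum (f := fun s =>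
          (v.ord (aeval z' (c s (d s))) + (D s : ℤ) * poleOrder v z').toNat)
          (fun _ _ => Nat.zero_le _) (Finset.mem_univ s))
        have h3 := h1 s
        show (-(v.ord (z s))).toNat ≤ _
        omega
      have h3 : ((∑ s, (v.ord (aeval z' (c s (d s))) +
          (D s : ℤ) * poleOrder v z').toNat : ℕ) : ℤ) =
          ∑ s, (v.ord (aeval z' (c s (d s))) + (D s : ℤ) * poleOrder v z') := by
        rw [Nat.cast_sum]
        refine Finset.sum_congr rfl fun s _ => Int.toNat_of_nonneg ?_
        exact le_trans (Int.natCast_nonneg _) (h1 s)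
      rw [← h3]
      exact_mod_cast h2
    -- the summation
    have hf1 := hPFI k K htr σ z
    have hf2 := hPFI k K htr (Fin (n + 1)) z'
    have hf3 : (⋃ s, {v : DV k K | v.ord (aeval z' (c s (d s))) ≠ 0}).Finite :=
      Set.finite_iUnion fun s => (hPFM k K htr _).1
    obtain ⟨T, hT⟩ : ∃ T : Finset (DV k K), ∀ v, v ∉ T → poleOrder v z = 0 ∧
        poleOrder v z' = 0 ∧ ∀ s, v.ord (aeval z' (c s (d s))) = 0 := by
      refine ⟨hf1.toFinset ∪ hf2.toFinset ∪ hf3.toFinset, fun v hv => ?_⟩
      simp only [Finset.mem_union, Set.Finite.mem_toFinset, Set.mem_ofPred_eq, not_or, not_not,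
        Set.mem_iUnion, not_exists] at hv
      exact ⟨hv.1.1, hv.1.2, hv.2⟩
    have s1 : ∑ v ∈ T, (poleOrder v z : ℤ) = deg k z := by
      rw [cast_deg htr, finsum_eq_sum_of_support_subset]
      intro v hv
      by_contra hcon
      exact hv (by
        simp only
        exact_mod_cast (hT v hcon).1)
    have s2 : ∑ v ∈ T, (poleOrder v z' : ℤ) = deg k z' := by
      rw [cast_deg htr, finsum_eq_sum_of_support_subset]
      intro v hv
      by_contra hcon
      exact hv (by
        simp only
        exact_mod_cast (hT v hcon).2.1)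
    have s3 : ∀ s, ∑ v ∈ T, v.ord (aeval z' (c s (d s))) = 0 := by
      intro s
      rw [← (hPFM k K htr (aeval z' (c s (d s)))).2, finsum_eq_sum_of_support_subset]
      intro v hv
      by_contra hcon
      exact hv ((hT v hcon).2.2 s)
    have h4 := Finset.sum_le_sum fun (v : DV k K) (_ : v ∈ T) => hloc v
    rw [s1, Finset.sum_comm] at h4
    have h5 : ∀ s, ∑ v ∈ T, (v.ord (aeval z' (c s (d s))) + (D s : ℤ) * poleOrder v z') =
        (D s : ℤ) * deg k z' := by
      intro s
      rw [Finset.sum_add_distrib, s3, zero_add, ← Finset.mul_sum, s2]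
    rw [Finset.sum_congr rfl fun s _ => h5 s, ← Finset.sum_mul] at h4
    exact_mod_cast h4
  · -- constant curves
    choose a ha using hconst
    have h1 : ∀ l, aeval z' (c s l) = algebraMap k K (eval a (c s l)) := by
      intro l
      have h2 : z' = fun j => algebraMap k K (a j) := funext fun j => (ha j).symm
      rw [h2, aeval_def, MvPolynomial.eval₂_eq_eval_map, MvPolynomial.eval_map]
      exact (MvPolynomial.eval₂_comp_left (algebraMap k K) (RingHom.id k) a (c s l)).symm ▸ rfl
    apply mem_range_of_isAlgebraic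
    let p : Polynomial k := ∑ l ∈ Finset.range (d s + 1),
      Polynomial.C (eval a (c s l)) * Polynomial.X ^ l
    refine ⟨p, ?_, ?_⟩
    · intro hp
      have h2 : p.coeff (d s) = eval a (c s (d s)) := by
        simp only [p, Polynomial.finsetSum_coeff, Polynomial.coeff_C_mul, Polynomial.coeff_X_pow]
        rw [Finset.sum_eq_single (d s)]
        · simp
        · intro b _ hb
          rw [if_neg (Ne.symm hb), mul_zero]
        · intro h
          exact absurd (Finset.mem_range.2 (Nat.lt_succ_self _)) h
      rw [hp, Polynomial.coeff_zero] at h2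
      apply hcd s
      rw [h1, ← h2, map_zero]
    · have h2 : Polynomial.aeval (z s) p =
          ∑ l ∈ Finset.range (d s + 1), aeval z' (c s l) * z s ^ l := by
        simp only [p, map_sum, map_mul, Polynomial.aeval_C, map_pow, Polynomial.aeval_X, h1]
      rw [h2]
      exact hz s

end Pool.Agent.H54.AW
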